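import Pool.Agent.Y922.AP.Stm3
import Pool.Agent.Y438.AP.T1

set_option autoImplicit false

/-!
# Project AQ: the behaviour near infinity (job AQ-T1)

The proof is the one of helper438 for the Riemann xi function, for a general function.
-/

namespace Pool.Agent.Y737.AQ

open Filter Topology Set Complex
open Pool.Agent.Y922.AP (LogEnd)
open Pool.Agent.Y922.AQ
open Pool.Agent.Y438.AP (L_expand sr sr_sq sr_re sr_slit sr_cont)

/-- the square root is large where `X` is not small -/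
theorem sr_large (f X : ℂ → ℂ) (hX : ∀ s : ℂ, X ((s - 1 / 2) ^ 2) = f s) {c b T : ℝ} (hT0 : 0 ≤ T)
    (hb : 2 ≤ b)
    (hT : ∀ s : ℂ, |s.re| ≤ b → T ≤ |s.im| → ‖f s‖ < c) {y : ℂ} (h1 : b ^ 2 + T ^ 2 + 1 ≤ ‖y‖)
    (h2 : c ≤ ‖X y‖) : b - 1 < (sr y).re ∧ y ≠ 0 ∧ X y = f (1 / 2 + sr y) := by
  have hy0 : y ≠ 0 := by
    intro h
    rw [h, norm_zero] at h1
    nlinarith [sq_nonneg b, sq_nonneg T]
  have hXy : X y = f (1 / 2 + sr y) := by
    rw [← hX, add_sub_cancel_left, sr_sq hy0]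
  refine ⟨?_, hy0, hXy⟩
  by_contra hcon
  push Not at hcon
  have hr := sr_re y
  have hn : ‖sr y‖ ^ 2 = ‖y‖ := by rw [← norm_pow, sr_sq hy0]
  have hn2 : ‖sr y‖ ^ 2 = (sr y).re ^ 2 + (sr y).im ^ 2 := by
    rw [← Complex.normSq_eq_norm_sq, Complex.normSq_apply]
    ring
  have h3 : T ^ 2 ≤ (sr y).im ^ 2 := by
    have : (sr y).re ^ 2 ≤ b ^ 2 := by nlinarith
    nlinarith
  have h4 : T ≤ |(sr y).im| := by
    rw [← abs_of_nonneg hT0]
    exact sq_le_sq.1 h3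
  have h5 := hT (1 / 2 + sr y) (by
    have : (1 / 2 + sr y).re = 1 / 2 + (sr y).re := by simp
    rw [this, abs_of_nonneg (by linarith)]
    linarith) (by
    have : (1 / 2 + sr y).im = (sr y).im := by simp
    rw [this]
    exact h4)
  rw [← hXy] at h5
  linarith

theorem t_T1 : S_T1 := by
  intro f hf X hXd hX c hc
  have h1 := hf.strip
  obtain ⟨σ₀, L, hσ, hL⟩ := hf.log
  obtain ⟨b, hb⟩ : ∃ b : ℝ, b = σ₀ + 2 := ⟨_, rfl⟩
  obtain ⟨T, hT⟩ := h1 c b hc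
  obtain ⟨T', hT'⟩ : ∃ T' : ℝ, T' = |T| := ⟨_, rfl⟩
  have hT0 : 0 ≤ T' := by rw [hT']; exact abs_nonneg _
  have hTT : ∀ s : ℂ, |s.re| ≤ b → T' ≤ |s.im| → ‖f s‖ < c := fun s ha hb' =>
    hT s ha ((le_abs_self T).trans (hT' ▸ hb'))
  have key : ∀ y : ℂ, b ^ 2 + T' ^ 2 + 1 ≤ ‖y‖ → c ≤ ‖X y‖ →
      σ₀ < (1 / 2 + sr y).re ∧ y ∈ Complex.slitPlane ∧ y ≠ 0 ∧ X y = f (1 / 2 + sr y) ∧
        0 < (sr y).re := by
    intro y hy1 hy2
    obtain ⟨k1, k2, k3⟩ := sr_large f X hX hT0 (by linarith) hTT hy1 hy2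
    have hr : 0 < (sr y).re := by linarith
    refine ⟨?_, sr_slit k2 hr, k2, k3, hr⟩
    have : (1 / 2 + sr y).re = 1 / 2 + (sr y).re := by simp
    rw [this]
    linarith
  refine ⟨b ^ 2 + T' ^ 2 + 1, fun y => L (1 / 2 + sr y), ?_, ?_, ?_, ?_⟩
  · rintro y ⟨hy1, hy2⟩
    obtain ⟨k1, k2, k3, k4, k5⟩ := key y hy1 hy2
    have hc1 : ContinuousAt (fun y => 1 / 2 + sr y) y := continuousAt_const.add (sr_cont k2)
    exact (ContinuousAt.comp (g := L) (f := fun y => 1 / 2 + sr y) (hL _ k1).1.continuousAt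
      hc1).continuousWithinAt
  · intro y hy1 hy2
    obtain ⟨k1, k2, k3, k4, k5⟩ := key y hy1 hy2
    rw [k4]
    exact (hL _ k1).2.1
  · intro M
    obtain ⟨s₀, hs₀⟩ : ∃ s₀ : ℂ, s₀ = ((σ₀ + 1 : ℝ) : ℂ) := ⟨_, rfl⟩
    have hs₀' : σ₀ < s₀.re := by
      rw [hs₀, Complex.ofReal_re]
      linarith
    refine ⟨(M + ‖L s₀‖ + ‖s₀‖ + 1 / 2) ^ 2, fun y hy1 hy2 hM => ?_⟩
    obtain ⟨k1, k2, k3, k4, k5⟩ := key y hy1 hy2
    have he := L_expand σ₀ L (fun s hs => ⟨(hL s hs).1, (hL s hs).2.2⟩) (1 / 2 + sr y) s₀ k1 hs₀'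
    have h3 : ‖L (1 / 2 + sr y) - L s₀‖ ≤ M + ‖L s₀‖ := (norm_sub_le _ _).trans (by linarith)
    have h4 : ‖sr y‖ ≤ M + ‖L s₀‖ + ‖s₀‖ + 1 / 2 := by
      have e : sr y = (1 / 2 + sr y - s₀) + s₀ - 1 / 2 := by ring
      have e2 : ‖(1 / 2 : ℂ)‖ = 1 / 2 := by norm_num
      calc ‖sr y‖ = ‖(1 / 2 + sr y - s₀) + s₀ - 1 / 2‖ := by rw [← e]
        _ ≤ ‖(1 / 2 + sr y - s₀) + s₀‖ + ‖(1 / 2 : ℂ)‖ := norm_sub_le _ _
        _ ≤ ‖1 / 2 + sr y - s₀‖ + ‖s₀‖ + 1 / 2 := by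
            rw [e2]
            gcongr
            exact norm_add_le _ _
        _ ≤ _ := by linarith
    calc ‖y‖ = ‖sr y‖ ^ 2 := by rw [← norm_pow, sr_sq k3]
      _ ≤ _ := by gcongr
  · intro y hy1 hy2
    obtain ⟨k1, k2, k3, k4, k5⟩ := key y hy1 hy2
    obtain ⟨s, hs⟩ : ∃ s : ℂ, s = 1 / 2 + sr y := ⟨_, rfl⟩
    rw [← hs] at k1 k4
    have hsy : (s - 1 / 2) ^ 2 = y := by rw [hs, add_sub_cancel_left, sr_sq k3]
    have d1 : HasDerivAt (fun z : ℂ => X ((z - 1 / 2) ^ 2)) (deriv X y * (2 * (s - 1 / 2))) s := by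
      have e1 : HasDerivAt (fun z : ℂ => (z - 1 / 2) ^ 2) (2 * (s - 1 / 2)) s := by
        have := ((hasDerivAt_id s).sub_const (1 / 2 : ℂ)).pow 2
        have h7 : HasDerivAt (fun z : ℂ => (z - 1 / 2) ^ 2) (((2 : ℕ) : ℂ) * (s - 1 / 2) ^ (2 - 1) * 1) s := this
        convert h7 using 1
        push_cast
        norm_num
      have e2 : HasDerivAt X (deriv X y) ((s - 1 / 2) ^ 2) := by
        rw [hsy]
        exact (hXd y).hasDerivAt
      exact HasDerivAt.comp s e2 e1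
    have d2 : HasDerivAt (fun z : ℂ => Complex.exp (L z)) (Complex.exp (L s) * deriv L s) s :=
      (hL s k1).1.differentiableAt.hasDerivAt.cexp
    have hev : (fun z : ℂ => X ((z - 1 / 2) ^ 2)) =ᶠ[𝓝 s] fun z : ℂ => Complex.exp (L z) := by
      have hop : IsOpen {z : ℂ | σ₀ < z.re} := isOpen_lt continuous_const Complex.continuous_re
      filter_upwards [hop.mem_nhds k1] with z hz
      rw [hX, (hL z hz).2.1]
    have d3 := d1.congr_of_eventuallyEq hev.symm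
    have hu := d3.unique d2
    intro h0
    rw [h0, zero_mul] at hu
    have h5 : deriv L s = 0 := (mul_eq_zero.1 hu.symm).resolve_left (Complex.exp_ne_zero _)
    have h6 := (hL s k1).2.2
    rw [h5] at h6
    simp at h6
    linarith

end Pool.Agent.Y737.AQ
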